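import Pool.Agent.Helper38.RS.Goals4

/-!
# Project RS: the statement S_INF
-/

namespace Pool.Agent.Helper39.RS

open NumberField Polynomial Module IsDedekindDomain TensorProduct Pool.Agent.Helper51.SigLeo
open Pool.Agent.Helper38.RS

section aux

variable {M : Type} [Field M] [NumberField M]

theorem ordv_one (w : HeightOneSpectrum (𝓞 M)) : ordv w (1 : M) = 0 := by
  unfold ordv
  rw [map_one, WithZero.log_one, neg_zero]

theorem ordv_mul (w : HeightOneSpectrum (𝓞 M)) {x y : M} (hx : x ≠ 0) (hy : y ≠ 0) :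
    ordv w (x * y) = ordv w x + ordv w y := by
  unfold ordv
  rw [map_mul, WithZero.log_mul ((Valuation.ne_zero_iff _).2 hx)
    ((Valuation.ne_zero_iff _).2 hy)]
  ring

theorem ordv_of_notMem (w : HeightOneSpectrum (𝓞 M)) {x : 𝓞 M} (hx : x ∉ w.asIdeal) :
    ordv w (x : M) = 0 := by
  unfold ordv
  have h : w.valuation M (algebraMap (𝓞 M) M x) = 1 :=
    (HeightOneSpectrum.valuation_eq_one_iff_notMem w).2 hx
  rw [show ((x : 𝓞 M) : M) = algebraMap (𝓞 M) M x from rfl, h, WithZero.log_one, neg_zero]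

theorem finite_bad {x : 𝓞 M} (hx : x ≠ 0) :
    {w : HeightOneSpectrum (𝓞 M) | x ∈ w.asIdeal}.Finite := by
  have h := Ideal.finite_factors (I := Ideal.span {x}) (by
    rwa [Ne, Ideal.zero_eq_bot, Ideal.span_singleton_eq_bot])
  refine h.subset ?_
  intro w hw
  exact (Ideal.dvd_span_singleton).2 hw

end aux

theorem s_inf (h1 : S_BEX) (h2 : S_NFI) (h3 : S_SLG) (h4 : S_FIN) (h5 : S_CMP) (h6 : S_DSC) :
    S_INF := by
  intro k _ _ _ _ hne L K M _ _ _ _ _ _ _ m δ ζ Φ P hP hδ hm T hT hTc Z hZ
  classical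
  -- the first step
  have step1 : ∃ a : 𝓞 K, a ≠ 0 ∧ (8 : 𝓞 K) ∣ a - 1 ∧
      ∀ x : Mˣ, Sel L (above T) P δ (algebraMap K M (a : K)) x → Sq x := by
    by_contra hcon
    push Not at hcon
    obtain ⟨n, hn⟩ := h4 M
    have key : ∀ j : ℕ, ∃ a : 𝓞 K, a ≠ 0 ∧ (8 : 𝓞 K) ∣ a - 1 ∧
        (∀ x : Mˣ, Sel L (above T) P δ (algebraMap K M (a : K)) x →
          ∀ w : HeightOneSpectrum (𝓞 M), Even (ordv w (x : M))) ∧
        ∃ F : Finset Mˣ, F.card = j + 1 ∧ 1 ∈ F ∧
          (∀ x ∈ F, ∀ w : HeightOneSpectrum (𝓞 M), Even (ordv w (x : M))) ∧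
          ∀ x ∈ F, ∀ y ∈ F, x ≠ y →
            ¬ Sel L (above T) P δ (algebraMap K M (a : K)) (x / y) := by
      intro j
      induction j with
      | zero =>
        refine ⟨1, one_ne_zero, ?_, ?_, {1}, ?_, ?_, ?_, ?_⟩
        · rw [sub_self]; exact dvd_zero _
        · intro x hx w
          refine hx.even w ?_
          have e1 : (algebraMap K M ((1 : 𝓞 K) : K)) = 1 := by simp
          rw [e1, ordv_one]
          exact Even.zero
        · simp
        · simp
        · intro x hx w
          rw [Finset.mem_singleton] at hx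
          rw [hx, Units.val_one, ordv_one]
          exact Even.zero
        · intro x hx y hy hxy
          rw [Finset.mem_singleton] at hx hy
          exact absurd (hx.trans hy.symm) hxy
      | succ j ih =>
        obtain ⟨a, ha0, ha8, hae, F, hF1, hF2, hF3, hF4⟩ := ih
        obtain ⟨b, hb0, hb8, hb1, x, hx1, hx2⟩ := h6 k hne L K M m δ ζ Φ P hP hδ hm T hT hTc a
          ha0 ha8 (by
            obtain ⟨x, hx, hx'⟩ := hcon a ha0 ha8
            exact ⟨x, hx, hx'⟩)
        have ha0' : (a : K) ≠ 0 := by exact_mod_cast ha0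
        have hab0 : a * b ≠ 0 := mul_ne_zero ha0 hb0
        have hab0' : ((a * b : 𝓞 K) : K) ≠ 0 := by
          intro h
          apply hab0
          exact_mod_cast h
        obtain ⟨G, hG, _, _⟩ := h3 k L K M δ P T (a : K) ha0'
        obtain ⟨G', hG', hG's, _⟩ := h3 k L K M δ P T ((a * b : 𝓞 K) : K) hab0'
        have h1G' : (1 : Mˣ) ∈ G' := G'.one_mem
        have hxne : x ≠ 1 := by
          rintro rfl
          exact hx2 ((hG' 1).1 h1G')
        have hxG : x ∈ G := (hG x).2 hx1
        have hxF : x ∉ F := by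
          intro hx
          have := hF4 x hx 1 hF2 hxne
          rw [div_one] at this
          exact this hx1
        refine ⟨a * b, hab0, ?_, ?_, insert x F, ?_, ?_, ?_, ?_⟩
        · have e : a * b - 1 = a * (b - 1) + (a - 1) := by ring
          rw [e]
          exact dvd_add (Dvd.dvd.mul_left hb8 a) ha8
        · intro y hy w
          exact hae y (hb1 y hy) w
        · rw [Finset.card_insert_of_notMem hxF, hF1]
        · exact Finset.mem_insert_of_mem hF2
        · intro y hy w
          rcases Finset.mem_insert.1 hy with rfl | hy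
          · exact hae _ hx1 w
          · exact hF3 y hy w
        · have aux : ∀ y ∈ F, ¬ Sel L (above T) P δ
              (algebraMap K M ((a * b : 𝓞 K) : K)) (x / y) := by
            intro y hy hs
            by_cases hy1 : y = 1
            · subst hy1
              rw [div_one] at hs
              exact hx2 hs
            · have h7 : x / y ∈ G := (hG _).2 (hb1 _ hs)
              have h8 : (1 : Mˣ) / y ∈ G := by
                have h9 : (1 : Mˣ) / y = x⁻¹ * (x / y) := by
                  rw [one_div, div_eq_mul_inv, inv_mul_cancel_left]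
                rw [h9]
                exact G.mul_mem (G.inv_mem hxG) h7
              exact hF4 1 hF2 y hy (Ne.symm hy1) ((hG _).1 h8)
          intro y hy z hz hyz hs
          rcases Finset.mem_insert.1 hy with h7 | h7
          · rcases Finset.mem_insert.1 hz with h8 | h8
            · exact hyz (h7.trans h8.symm)
            · rw [h7] at hs
              exact aux z h8 hs
          · rcases Finset.mem_insert.1 hz with h8 | h8
            · rw [h8] at hs
              refine aux y h7 ((hG' _).1 ?_)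
              have h9 : x / y = (y / x)⁻¹ := (inv_div y x).symm
              rw [h9]
              exact G'.inv_mem ((hG' _).2 hs)
            · exact hF4 y h7 z h8 hyz (hb1 _ hs)
    obtain ⟨a, ha0, _, _, F, hF1, _, hF3, hF4⟩ := key n
    have ha0' : (a : K) ≠ 0 := by exact_mod_cast ha0
    obtain ⟨G, hG, hGs, _⟩ := h3 k L K M δ P T (a : K) ha0'
    have := hn F hF3 fun x hx y hy hxy hs => hF4 x hx y hy hxy ((hG _).1 (hGs _ hs))
    omega
  -- the second step
  obtain ⟨a, ha0, ha8, haS⟩ := step1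
  have hodd : Odd (finrank K M) := hm ▸ hP.odd
  have hone : 1 < finrank K M := hm ▸ hP.one_lt
  have h8a : (8 * a : 𝓞 K) ≠ 0 := mul_ne_zero (by norm_num) ha0
  have hinj : Function.Injective (algebraMap (𝓞 K) (𝓞 M)) := by
    exact FaithfulSMul.algebraMap_injective (𝓞 K) (𝓞 M)
  have hcoe : ∀ y : 𝓞 K, algebraMap K M (y : K) = ((algebraMap (𝓞 K) (𝓞 M) y : 𝓞 M) : M) :=
    fun y => rfl
  have h8a' : algebraMap (𝓞 K) (𝓞 M) (8 * a) ≠ 0 := by
    rw [Ne, map_eq_zero_iff _ hinj]
    exact h8a
  obtain ⟨w, hwZ, hwF⟩ := h2 K M hone (Z ∪ {w | algebraMap (𝓞 K) (𝓞 M) (8 * a) ∈ w.asIdeal})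
    (hZ.union (finite_bad h8a'))
  have hwZ1 : w ∉ Z := fun h => hwZ (Or.inl h)
  have hwa : algebraMap (𝓞 K) (𝓞 M) (8 * a) ∉ w.asIdeal := fun h => hwZ (Or.inr h)
  have hwa' : algebraMap (𝓞 K) (𝓞 M) a ∉ w.asIdeal := by
    intro h
    apply hwa
    rw [map_mul]
    exact w.asIdeal.mul_mem_left _ h
  obtain ⟨b, hb0, hbd, hbo, hbc⟩ := h1 K M hodd hone w (8 * a) h8a (by
    rw [hcoe]
    exact ordv_of_notMem w hwa)
  refine ⟨a * b, mul_ne_zero ha0 hb0, ?_, ?_, w, hwZ1, ?_⟩
  · have e : a * b - 1 = a * (b - 1) + (a - 1) := by ring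
    rw [e]
    exact dvd_add (Dvd.dvd.mul_left (dvd_trans (dvd_mul_right _ _) hbd) a) ha8
  · intro x hx
    refine haS x (h5 k L K M m δ ζ Φ P hP hδ hm T a b ha0 ha8 hb0 hbd x hx ?_)
    intro w' hw' hfree
    exfalso
    obtain ⟨g, hg⟩ := hbc w' hw' hfree
    apply hwF
    intro h hh
    have h7 : g * h * g⁻¹ = 1 := by
      apply hfree
      intro y
      have e1 : (g * h * g⁻¹) y = g (h (g⁻¹ y)) := rfl
      have e2 : g (g⁻¹ y) = y := by
        have : (g * g⁻¹) y = y := by rw [mul_inv_cancel]; rfl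
        exact this
      rw [e1, hg, hh, ← hg, e2]
    have h8 : g * h = g := by
      have := congrArg (fun z => z * g) h7
      simpa [mul_assoc] using this
    exact mul_eq_left.1 h8
  · have ha1 : algebraMap K M (a : K) ≠ 0 := by
      rw [Ne, map_eq_zero_iff _ (algebraMap K M).injective]
      exact_mod_cast ha0
    have hb1 : algebraMap K M (b : K) ≠ 0 := by
      rw [Ne, map_eq_zero_iff _ (algebraMap K M).injective]
      exact_mod_cast hb0
    have e : algebraMap K M ((a * b : 𝓞 K) : K) =
        algebraMap K M (a : K) * algebraMap K M (b : K) := by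
      rw [← map_mul]
      rfl
    rw [e, ordv_mul w ha1 hb1, hcoe a, ordv_of_notMem w hwa', zero_add]
    exact Int.not_even_iff_odd.2 hbo

end Pool.Agent.Helper39.RS
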